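import Mathlib
import Pool.Agent.H5.Freq

namespace Pool.Agent.Results.MP_1f54e8_co.RhoReversed

open Pool.Agent.H5.Freq

/-- The excluded words 1^(k-1) 0, 1 0^(k-1), 0^(k-1) 1, 0 1^(k-1), k at least 2. -/
def InR (x : List Bool) : Prop :=
  ∃ k : ℕ, 2 ≤ k ∧ (x = List.replicate (k - 1) true ++ [false] ∨
    x = true :: List.replicate (k - 1) false ∨ x = List.replicate (k - 1) false ++ [true] ∨
    x = false :: List.replicate (k - 1) true)

theorem result : ∃ a b : List Bool, ¬ InR a ∧ ¬ InR b ∧ a.length = 4 ∧ b.length = 4 ∧
    a.count true < b.count true ∧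
    ∀ n : ℕ, 8000 ≤ n → freq a n ≤ 426 / 1000 ∧ 427 / 1000 ≤ freq b n := by
  refine ⟨v, w, ?_, ?_, rfl, rfl, by decide, main⟩
  · rintro ⟨k, hk, h⟩
    have h4 : k = 4 := by
      rcases h with h | h | h | h <;>
      · have := congrArg List.length h
        simp [v] at this
        omega
    subst h4
    revert h
    decide
  · rintro ⟨k, hk, h⟩
    have h4 : k = 4 := by
      rcases h with h | h | h | h <;>
      · have := congrArg List.length h
        simp [w] at this
        omega
    subst h4
    revert h
    decide

end Pool.Agent.Results.MP_1f54e8_co.RhoReversed
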